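import Mathlib

namespace Pool.Agent.Results.MP_c24ba3_gt.BothFalse
open Set MeasureTheory

section
variable {X : Type} [TopologicalSpace X]

/-- A `k`-cover: a family of open sets such that every compact set lies in some member. -/
def KCover (𝒰 : Set (Set X)) : Prop :=
  (∀ U ∈ 𝒰, IsOpen U) ∧ ∀ K : Set X, IsCompact K → ∃ U ∈ 𝒰, K ⊆ U

/-- The first `n` moves of the first player, the latest one first. -/
def hist (𝒰 : ℕ → Set (Set X)) : ℕ → List (Set (Set X))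
  | 0 => []
  | n + 1 => 𝒰 n :: hist 𝒰 n
end

def KMenger (X : Type) [TopologicalSpace X] : Prop :=
  ∀ 𝒰 : ℕ → Set (Set X), (∀ n, KCover (𝒰 n)) →
    ∃ F : ℕ → Set (Set X), (∀ n, F n ⊆ 𝒰 n ∧ (F n).Finite) ∧ KCover (⋃ n, F n)

def KRothberger (X : Type) [TopologicalSpace X] : Prop :=
  ∀ 𝒰 : ℕ → Set (Set X), (∀ n, KCover (𝒰 n)) →
    ∃ U : ℕ → Set X, (∀ n, U n ∈ 𝒰 n) ∧ KCover (range U)

def StratKMenger (X : Type) [TopologicalSpace X] : Prop :=
  ∃ σ : List (Set (Set X)) → Set (Set X), ∀ 𝒰 : ℕ → Set (Set X), (∀ n, KCover (𝒰 n)) →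
    (∀ n, σ (hist 𝒰 (n + 1)) ⊆ 𝒰 n ∧ (σ (hist 𝒰 (n + 1))).Finite) ∧
      KCover (⋃ n, σ (hist 𝒰 (n + 1)))

def StratKRothberger (X : Type) [TopologicalSpace X] : Prop :=
  ∃ σ : List (Set (Set X)) → Set X, ∀ 𝒰 : ℕ → Set (Set X), (∀ n, KCover (𝒰 n)) →
    (∀ n, σ (hist 𝒰 (n + 1)) ∈ 𝒰 n) ∧ KCover (range fun n => σ (hist 𝒰 (n + 1)))

def X : Type := unitInterval

instance : Nonempty X := ⟨(0 : unitInterval)⟩

def Op (W : Set unitInterval) : Prop := ∃ U, IsOpen U ∧ W ⊆ U ∧ (U \ W).Countable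

instance : TopologicalSpace X where
  IsOpen W := Op W
  isOpen_univ := ⟨univ, isOpen_univ, subset_rfl, countable_empty.mono fun _ h => h.2 h.1⟩
  isOpen_inter := by
    rintro s t ⟨U, a, b, c⟩ ⟨V, d, e, f⟩
    exact ⟨U ∩ V, a.inter d, inter_subset_inter b e, (c.union f).mono fun x hx =>
      (not_and_or.1 hx.2).imp (fun h => ⟨hx.1.1, h⟩) fun h => ⟨hx.1.2, h⟩⟩
  isOpen_sUnion s hs := by
    choose U a b c using fun W : s => hs W W.2
    obtain ⟨T, h1, h2⟩ := TopologicalSpace.isOpen_iUnion_countable U a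
    refine ⟨⋃ i, U i, isOpen_iUnion a, fun x ⟨W, h, hx⟩ => mem_iUnion.2 ⟨⟨W, h⟩, b _ hx⟩,
      (h1.biUnion fun i _ => c i).mono fun x hx => ?_⟩
    obtain ⟨i, hi, hx'⟩ := mem_iUnion₂.1 (h2.symm.subset hx.1)
    exact mem_biUnion hi ⟨hx', fun h => hx.2 ⟨i, i.2, h⟩⟩

lemma fin {K : Set X} (hK : IsCompact K) : K.Finite := by
  by_contra h
  let f : ℕ → X := fun n => Set.Infinite.natEmbedding K h n
  have inj : Function.Injective f := Subtype.val_injective.comp (Set.Infinite.natEmbedding K h).injective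
  obtain ⟨n, hn⟩ := hK.elim_directed_cover (fun n => (f '' Ici n)ᶜ)
    (fun n => ⟨univ, isOpen_univ, subset_univ _, ((to_countable _).image f).mono fun x hx =>
      not_not.1 hx.2⟩)
    (fun x _ => by
      by_cases c : ∃ n, f n = x
      · obtain ⟨n, rfl⟩ := c
        exact mem_iUnion.2 ⟨n + 1, fun ⟨m, h1, h2⟩ => by rw [inj h2] at h1; simp at h1⟩
      · exact mem_iUnion.2 ⟨0, fun ⟨m, _, h2⟩ => c ⟨m, h2⟩⟩)
    (Monotone.directed_le fun a b l => compl_subset_compl.2 (image_mono (Ici_subset_Ici.2 l)))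
  exact hn (Set.Infinite.natEmbedding K h n).2 ⟨n, mem_Ici.2 le_rfl, rfl⟩

lemma sel (𝒰 : Set (Set X)) (A : Set X) (m : ℕ) : ∃ (F : Set (Set X)) (e : ℕ → X),
    KCover 𝒰 → A.Finite → F ⊆ 𝒰 ∧ F.Finite ∧
      ∀ s : Fin m → X, ∃ W ∈ F, A ⊆ W ∧ ∀ i, s i ∉ range e → s i ∈ W := by
  by_cases h : KCover 𝒰 ∧ A.Finite
  swap
  · exact ⟨∅, fun _ => Classical.arbitrary _, fun a b => absurd ⟨a, b⟩ h⟩
  choose W h1 h2 using fun s : Fin m → unitInterval =>
    h.1.2 (A ∪ range s) (h.2.union (finite_range s)).isCompact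
  choose U a b c using fun s => h.1.1 _ (h1 s)
  obtain ⟨t, ht⟩ := isCompact_univ.elim_finite_subcover
    (fun s : Fin m → unitInterval => pi univ fun _ => U s)
    (fun s => isOpen_set_pi finite_univ fun _ _ => a s)
    fun s _ => mem_iUnion.2 ⟨s, fun i _ => b s (h2 s (Or.inr ⟨i, rfl⟩))⟩
  obtain ⟨e, he⟩ := countable_iff_exists_subset_range.1
    (t.countable_toSet.biUnion fun s _ => c s)
  refine ⟨W '' t, e, fun _ _ => ⟨by rintro _ ⟨s, -, rfl⟩; exact h1 s, t.finite_toSet.image _,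
    fun s => ?_⟩⟩
  obtain ⟨r, hr, hs⟩ := mem_iUnion₂.1 (ht (mem_univ s))
  exact ⟨W r, ⟨r, hr, rfl⟩, subset_union_left.trans (h2 r), fun i hi =>
    by_contra fun z => hi (he (mem_biUnion hr ⟨hs i trivial, z⟩))⟩

def AA (L : List (ℕ → X)) : Set X := ⋃ f ∈ {f | f ∈ L}, f '' Iio L.length

lemma strat : StratKMenger X := by
  choose F e h using sel
  let E : List (Set (Set X)) → List (ℕ → X) := fun l =>
    l.rec [] fun 𝒰 r L => e 𝒰 (AA L) r.length :: L
  have fA : ∀ L, (AA L).Finite := fun L => L.finite_toSet.biUnion fun f _ => (finite_Iio _).image f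
  refine ⟨fun l => match l with
    | [] => ∅
    | 𝒰 :: r => F 𝒰 (AA (E r)) r.length, fun 𝒰 hU => ?_⟩
  have len : ∀ n, (hist 𝒰 n).length = n ∧ (E (hist 𝒰 n)).length = n := fun n => by
    induction n with
    | zero => exact ⟨rfl, rfl⟩
    | succ n ih => exact ⟨congrArg (· + 1) ih.1, congrArg (· + 1) ih.2⟩
  have H := fun n => h (𝒰 n) (AA (E (hist 𝒰 n))) (hist 𝒰 n).length (hU n) (fA _)
  set g : ℕ → ℕ → X := fun n => e (𝒰 n) (AA (E (hist 𝒰 n))) (hist 𝒰 n).length with hg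
  have mem : ∀ j n, j < n → g j ∈ E (hist 𝒰 n) := by
    intro j n hn
    induction n, hn using Nat.le_induction with
    | base => exact List.mem_cons_self
    | succ n _ ih => exact List.mem_cons_of_mem _ ih
  refine ⟨fun n => ⟨(H n).1, (H n).2.1⟩, fun U hU' => ?_, fun K hK => ?_⟩
  · obtain ⟨n, hn⟩ := mem_iUnion.1 hU'
    exact (hU n).1 U ((H n).1 hn)
  obtain ⟨s, hs⟩ := countable_iff_exists_subset_range.1 (fin hK).countable
  have ev : ∀ x ∈ K, ∀ᶠ n in Filter.atTop, (∃ i < n, s i = x) ∧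
      ((∃ j i, g j i = x) → x ∈ AA (E (hist 𝒰 n))) := by
    intro x hx
    obtain ⟨k, hk⟩ := hs hx
    by_cases c : ∃ j i, g j i = x
    · obtain ⟨j, i, rfl⟩ := c
      filter_upwards [Filter.eventually_gt_atTop (k + j + i)] with n hn
      exact ⟨⟨k, by omega, hk⟩, fun _ => mem_biUnion (mem j n (by omega))
        ⟨i, by rw [(len n).2]; exact (by omega : i < n), rfl⟩⟩
    · filter_upwards [Filter.eventually_gt_atTop k] with n hn
      exact ⟨⟨k, hn, hk⟩, fun z => absurd z c⟩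
  obtain ⟨n, hn⟩ := ((Filter.eventually_all_finite (fin hK)).2 ev).exists
  obtain ⟨W, w1, w2, w3⟩ := (H n).2.2 fun i => s i
  refine ⟨W, mem_iUnion.2 ⟨n, w1⟩, fun x hx => ?_⟩
  obtain ⟨⟨i, hi, rfl⟩, a⟩ := hn x hx
  by_cases c : s i ∈ range (g n)
  · exact w2 (a ⟨n, c⟩)
  · exact w3 ⟨i, by rw [(len n).1]; exact hi⟩ c

lemma notR : ¬ KRothberger X := by
  intro h
  obtain ⟨δ, h0, h1⟩ := ENNReal.exists_pos_sum_of_countable (ε := 1) one_ne_zero ℕ
  obtain ⟨U, a, -, b⟩ := h (fun n => {U : Set unitInterval | IsOpen U ∧ volume U < δ n}) fun n =>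
    ⟨fun U hU => ⟨U, hU.1, subset_rfl, by simp⟩, fun K hK => by
      obtain ⟨U, c, d, e⟩ := Set.exists_isOpen_lt_of_lt (μ := (volume : Measure unitInterval))
        K (δ n) ((Set.Finite.measure_zero (α := unitInterval) (fin hK) volume).trans_lt
          (by exact_mod_cast h0 n))
      exact ⟨U, ⟨d, e⟩, c⟩⟩
  have : (univ : Set unitInterval) ⊆ ⋃ n, U n := fun x _ => by
    obtain ⟨_, ⟨n, rfl⟩, hn⟩ := b {x} isCompact_singleton
    exact mem_iUnion.2 ⟨n, hn rfl⟩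
  have := ((measure_mono (μ := (volume : Measure unitInterval)) this).trans
    (measure_iUnion_le _)).trans (ENNReal.tsum_le_tsum fun n => (a n).2.le)
  rw [measure_univ] at this
  exact absurd h1 (not_lt.2 this)

theorem result : ∃ (Z : Type) (_ : TopologicalSpace Z), KMenger Z ∧ StratKMenger Z ∧
    ¬ KRothberger Z ∧ ¬ StratKRothberger Z :=
  ⟨X, inferInstance, fun 𝒰 h => let ⟨_, hσ⟩ := strat; ⟨_, hσ 𝒰 h⟩, strat, notR,
    fun ⟨_, hσ⟩ => notR fun 𝒰 h => ⟨_, hσ 𝒰 h⟩⟩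

end Pool.Agent.Results.MP_c24ba3_gt.BothFalse
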